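import Mathlib
import Pool.Agent.Helper56.SKF.Defs

/-!
# Project SKF, module D: coinduction over a sub-presentation
-/

namespace Pool.Agent.Helper81.SKF

open Module Pool.Agent.Helper56.SKW Pool.Agent.Helper56.SKW.PBW Pool.Agent.Helper56.SKU
  Pool.Agent.Helper56.SKR

universe u v w

section coind

variable {Δ S F L : Type*} [Ring Δ] [Ring S] [Module Δ S] [IsScalarTower Δ S S]
  [Field F] [AddCommGroup L] [Module F L] [Module Δ L] [SMulCommClass Δ F L]

/-- Right multiplication as a `Δ`-linear map. -/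
def rmulR (Δ : Type*) {S : Type*} [Ring Δ] [Ring S] [Module Δ S] [IsScalarTower Δ S S]
    (b : S) : S →ₗ[Δ] S where
  toFun s := s * b
  map_add' s t := add_mul s t b
  map_smul' a s := smul_mul_assoc a s b

/-- The coinduced representation. -/
def coindR : S →+* Module.End F (S →ₗ[Δ] L) where
  toFun b :=
    { toFun := fun f => f.comp (rmulR Δ b)
      map_add' := fun f g => rfl
      map_smul' := fun c f => rfl }
  map_one' := by
    apply LinearMap.ext
    intro f
    apply LinearMap.ext
    intro s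
    show f (s * 1) = f s
    rw [mul_one]
  map_mul' b b' := by
    apply LinearMap.ext
    intro f
    apply LinearMap.ext
    intro s
    show f (s * (b * b')) = f ((s * b) * b')
    rw [mul_assoc]
  map_zero' := by
    apply LinearMap.ext
    intro f
    apply LinearMap.ext
    intro s
    show f (s * 0) = 0
    rw [mul_zero, map_zero]
  map_add' b b' := by
    apply LinearMap.ext
    intro f
    apply LinearMap.ext
    intro s
    show f (s * (b + b')) = f (s * b) + f (s * b')
    rw [mul_add, map_add]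

end coind

section words

variable {R : Type*} {X X' : Type} [CommRing R] [Fintype X] [Fintype X'] [LinearOrder X]
  [LinearOrder X']

/-- The ordered words are linearly independent. -/
theorem bw_indep {P : Pres R X} {hE : ∀ x y, IsUnit (P.E x y)} {hn : ∀ x, 2 ≤ P.n x}
    (h : IsFlat hE hn) (c : TI P → R) (hc : ∑ r, c r • pwf (gE P) (bw P r) = 0) (r : TI P) :
    c r = 0 := by
  classical
  have h2 : (liftE h.rel (∑ r, c r • pwf (gE P) (bw P r))).mulVec (Pi.single (ti0 hn) 1) =
      c := by
    rw [map_sum]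
    have h3 : ∀ r, liftE h.rel (c r • pwf (gE P) (bw P r)) =
        c r • pwf (Gm hE hn) (bw P r) := by
      intro r
      rw [liftE_smul, liftE_pwf]
      rfl
    simp only [h3]
    rw [Matrix.sum_mulVec]
    have h4 : ∀ r, (c r • pwf (Gm hE hn) (bw P r)).mulVec (Pi.single (ti0 hn) 1) =
        Pi.single r (c r) := by
      intro r
      rw [Matrix.smul_mulVec, h.cyc]
      funext r'
      rw [Pi.smul_apply, Pi.single_apply, Pi.single_apply]
      split_ifs <;> simp
    simp only [h4]
    funext r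
    rw [Finset.sum_apply, Finset.sum_eq_single r]
    · simp
    · intro r' _ hne
      rw [Pi.single_eq_of_ne (Ne.symm hne)]
    · simp
  rw [hc, map_zero, Matrix.zero_mulVec] at h2
  exact (congrFun h2 r).symm

/-- The letters outside the range. -/
abbrev Rest (ι : X' → X) : Type := {x : X // x ∉ Set.range ι}

/-- The exponents of the letters outside the range. -/
abbrev RT (Pr : Pres R X) (ι : X' → X) : Type := (y : Rest ι) → Fin (Pr.n y)

/-- Splitting the exponents. -/
def split (Pr : Pres R X) (Pr' : Pres R X') (ι : X' → X) (hnn : ∀ x', Pr'.n x' = Pr.n (ι x'))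
    (r : TI Pr) : TI Pr' × RT Pr ι :=
  (fun x' => ⟨r (ι x'), by rw [hnn]; exact (r (ι x')).2⟩, fun y => r y)

omit [Fintype X] [LinearOrder X'] in
theorem split_bij (Pr : Pres R X) (Pr' : Pres R X') (ι : X' → X) (hι : Function.Injective ι)
    (hnn : ∀ x', Pr'.n x' = Pr.n (ι x')) : Function.Bijective (split Pr Pr' ι hnn) := by
  classical
  constructor
  · intro r s h
    have h1 := congrArg Prod.fst h
    have h2 := congrArg Prod.snd h
    funext x
    by_cases hx : x ∈ Set.range ι
    · obtain ⟨x', rfl⟩ := hx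
      have h3 := congrFun h1 x'
      apply Fin.ext
      have h4 : (((split Pr Pr' ι hnn r).1 x' : Fin (Pr'.n x')) : ℕ) =
          (((split Pr Pr' ι hnn s).1 x' : Fin (Pr'.n x')) : ℕ) := by rw [h3]
      exact h4
    · exact congrFun h2 ⟨x, hx⟩
  · rintro ⟨r', s⟩
    have hpf : ∀ x : X, ∀ h : x ∈ Set.range ι, (r' h.choose : ℕ) < Pr.n x := by
      intro x h
      have h1 := (r' h.choose).2
      have h2 := h.choose_spec
      calc (r' h.choose : ℕ) < Pr'.n h.choose := h1
        _ = Pr.n (ι h.choose) := hnn _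
        _ = Pr.n x := by rw [h2]
    refine ⟨fun x => if h : x ∈ Set.range ι then ⟨r' h.choose, hpf x h⟩ else s ⟨x, h⟩, ?_⟩
    refine Prod.ext ?_ ?_
    · funext x'
      apply Fin.ext
      have h : ι x' ∈ Set.range ι := ⟨x', rfl⟩
      show ((if h : ι x' ∈ Set.range ι then (⟨r' h.choose, hpf _ h⟩ : Fin (Pr.n (ι x'))) else
        s ⟨ι x', h⟩ : Fin _) : ℕ) = r' x'
      rw [dif_pos h]
      have h2 : h.choose = x' := hι h.choose_spec
      show (r' h.choose : ℕ) = r' x'
      rw [h2]
    · funext y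
      show (if h : (y : X) ∈ Set.range ι then (⟨r' h.choose, hpf _ h⟩ : Fin (Pr.n (y : X))) else
        s ⟨y, h⟩) = s y
      rw [dif_neg y.2]

open Classical in
/-- The rest words. -/
noncomputable def rw' (Pr : Pres R X) (ι : X' → X) (s : RT Pr ι) : List X :=
  (sw fun y : Rest ι => (s y : ℕ)).map Subtype.val

theorem bw_split (Pr : Pres R X) (Pr' : Pres R X') (ι : X' → X) (hι : StrictMono ι)
    (hlt : ∀ x' x, x ∉ Set.range ι → ι x' < x)
    (hnn : ∀ x', Pr'.n x' = Pr.n (ι x')) (r : TI Pr) :
    bw Pr r = (bw Pr' (split Pr Pr' ι hnn r).1).map ι ++ rw' Pr ι (split Pr Pr' ι hnn r).2 := by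
  classical
  symm
  apply eq_sw
  · rw [List.pairwise_append]
    refine ⟨?_, ?_, ?_⟩
    · rw [List.pairwise_map]
      exact (sorted_sw _).imp fun {a b} hab => hι.monotone hab
    · unfold rw'
      rw [List.pairwise_map]
      exact (sorted_sw _).imp fun {a b} hab => hab
    · intro a ha b hb
      obtain ⟨x', -, rfl⟩ := List.mem_map.1 ha
      obtain ⟨y, -, rfl⟩ := List.mem_map.1 hb
      exact (hlt x' y y.2).le
  · intro x
    rw [List.count_append]
    by_cases hx : x ∈ Set.range ι
    · obtain ⟨x', rfl⟩ := hx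
      have h1 : ((bw Pr' (split Pr Pr' ι hnn r).1).map ι).count (ι x') = (r (ι x') : ℕ) := by
        rw [List.count_map_of_injective _ ι hι.injective]
        exact count_sw _ _
      have h2 : (rw' Pr ι (split Pr Pr' ι hnn r).2).count (ι x') = 0 := by
        rw [List.count_eq_zero]
        intro hmem
        obtain ⟨y, -, hy⟩ := List.mem_map.1 hmem
        exact y.2 ⟨x', hy.symm⟩
      rw [h1, h2, add_zero]
    · have h1 : ((bw Pr' (split Pr Pr' ι hnn r).1).map ι).count x = 0 := by
        rw [List.count_eq_zero]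
        intro hmem
        obtain ⟨y, -, hy⟩ := List.mem_map.1 hmem
        exact hx ⟨y, hy⟩
      have h2 : (rw' Pr ι (split Pr Pr' ι hnn r).2).count x = (r x : ℕ) := by
        unfold rw'
        have := List.count_map_of_injective (sw fun y : Rest ι =>
          (((split Pr Pr' ι hnn r).2 y : Fin _) : ℕ)) Subtype.val Subtype.val_injective ⟨x, hx⟩
        have h3 : List.count x ((sw fun y : Rest ι =>
            (((split Pr Pr' ι hnn r).2 y : Fin _) : ℕ)).map Subtype.val) =
            List.count (⟨x, hx⟩ : Rest ι) (sw fun y : Rest ι =>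
              (((split Pr Pr' ι hnn r).2 y : Fin _) : ℕ)) := this
        have h5 := count_sw (X := Rest ι) (fun y : Rest ι =>
          (((split Pr Pr' ι hnn r).2 y : Fin _) : ℕ)) ⟨x, hx⟩
        rw [h3]
        have h6 : (((split Pr Pr' ι hnn r).2 ⟨x, hx⟩ : Fin _) : ℕ) = (r x : ℕ) := rfl
        rw [← h6]
        convert h5
      rw [h1, h2, zero_add]

omit [Fintype X] [Fintype X'] [LinearOrder X] [LinearOrder X'] in
theorem pwf_map' {A : Type*} [Ring A] (f : X → A) (ι : X' → X) (l : List X') :
    pwf f (l.map ι) = pwf (fun x' => f (ι x')) l := by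
  unfold pwf
  rw [List.map_map]
  rfl

end words

theorem coind_pres {R : Type u} {X X' : Type} [CommRing R] [Fintype X] [Fintype X']
    [LinearOrder X] [LinearOrder X'] (Pr : Pres R X) (Pr' : Pres R X')
    (hE : ∀ x y, IsUnit (Pr.E x y)) (hn : ∀ x, 2 ≤ Pr.n x) (hfl : IsFlat hE hn)
    (hE' : ∀ x y, IsUnit (Pr'.E x y)) (ι : X' → X) (hι : StrictMono ι)
    (hlt : ∀ x' x, x ∉ Set.range ι → ι x' < x) (hnn : ∀ x', Pr'.n x' = Pr.n (ι x'))
    (hrel : IsRel Pr' (RingHom.id R) fun x' => gE Pr (ι x'))
    {F : Type u} [Field F] (φ : R →+* F) {L : Type u} [AddCommGroup L] [Module F L]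
    [FiniteDimensional F L] (τ : EU Pr' →+* Module.End F L)
    (hτ : ∀ (r : R) a, τ (r • a) = φ r • τ a) :
    ∃ (W : Type u) (_ : AddCommGroup W) (_ : Module F W) (_ : FiniteDimensional F W)
      (ρ : EU Pr →+* Module.End F W), (∀ (r : R) a, ρ (r • a) = φ r • ρ a) ∧
      finrank F W * ∏ x', Pr'.n x' = (∏ x, Pr.n x) * finrank F L := by
  classical
  have hn' : ∀ x', 2 ≤ Pr'.n x' := fun x' => by rw [hnn]; exact hn _
  let κ : EU Pr' →+* EU Pr := liftE hrel
  have hκw : ∀ l : List X', κ (pwf (gE Pr') l) = pwf (gE Pr) (l.map ι) := by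
    intro l
    rw [pwf_map']
    exact liftE_pwf hrel l
  have hκs : ∀ (r : R) a, κ (r • a) = r • κ a := fun r a => liftE_smul hrel r a
  let w : RT Pr ι → EU Pr := fun s => pwf (gE Pr) (rw' Pr ι s)
  have hbw : ∀ r : TI Pr, pwf (gE Pr) (bw Pr r) =
      κ (pwf (gE Pr') (bw Pr' (split Pr Pr' ι hnn r).1)) * w (split Pr Pr' ι hnn r).2 := by
    intro r
    rw [hκw, bw_split Pr Pr' ι hι hlt hnn r, pwf_append]
  let eqv : TI Pr ≃ TI Pr' × RT Pr ι :=
    Equiv.ofBijective _ (split_bij Pr Pr' ι hι.injective hnn)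
  let _ : Module (EU Pr') (EU Pr) := Module.compHom (EU Pr) κ
  let _ : Module (EU Pr') L := Module.compHom L τ
  have hsm : ∀ (a : EU Pr') (b : EU Pr), a • b = κ a * b := fun a b => rfl
  have hsmL : ∀ (a : EU Pr') (b : L), a • b = τ a b := fun a b => rfl
  have h1 : IsScalarTower (EU Pr') (EU Pr) (EU Pr) := ⟨fun a b c => by
    show (κ a * b) * c = κ a * (b * c)
    rw [mul_assoc]⟩
  have h2 : SMulCommClass (EU Pr') F L := ⟨fun a b c => by
    show τ a (b • c) = b • τ a c
    rw [map_smul]⟩
  have hli : LinearIndependent (EU Pr') w := by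
    rw [Fintype.linearIndependent_iff]
    intro g hg
    have hco := fun s => co_spec hE' hn' (g s)
    let c : TI Pr → R := fun r => co hE' hn' (g (eqv r).2) (eqv r).1
    have h3 : ∑ r, c r • pwf (gE Pr) (bw Pr r) = 0 := by
      rw [← hg, ← eqv.symm.sum_comp, Fintype.sum_prod_type, Finset.sum_comm]
      refine Finset.sum_congr rfl fun s _ => ?_
      rw [hsm]
      conv_rhs => rw [hco s]
      rw [map_sum, Finset.sum_mul]
      refine Finset.sum_congr rfl fun r' _ => ?_
      have h4 : split Pr Pr' ι hnn (eqv.symm (r', s)) = (r', s) := eqv.apply_symm_apply (r', s)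
      have h5 : eqv (eqv.symm (r', s)) = (r', s) := eqv.apply_symm_apply (r', s)
      rw [hbw, h4, hκs, smul_mul_assoc]
      show co hE' hn' (g (eqv (eqv.symm (r', s))).2) (eqv (eqv.symm (r', s))).1 • _ = _
      rw [h5]
    have h6 := bw_indep hfl c h3
    intro s
    rw [hco s]
    refine Finset.sum_eq_zero fun r' _ => ?_
    have h7 := h6 (eqv.symm (r', s))
    have h8 : co hE' hn' (g s) r' = 0 := by
      have h5 : eqv (eqv.symm (r', s)) = (r', s) := eqv.apply_symm_apply (r', s)
      have h9 : co hE' hn' (g (eqv (eqv.symm (r', s))).2) (eqv (eqv.symm (r', s))).1 = 0 := h7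
      rw [h5] at h9
      exact h9
    rw [h8, zero_smul]
  have hsp : ⊤ ≤ Submodule.span (EU Pr') (Set.range w) := by
    intro a _
    rw [co_spec hE hn a]
    refine Submodule.sum_mem _ fun r _ => ?_
    have h3 : co hE hn a r • pwf (gE Pr) (bw Pr r) =
        (co hE hn a r • pwf (gE Pr') (bw Pr' (split Pr Pr' ι hnn r).1)) •
          w (split Pr Pr' ι hnn r).2 := by
      rw [hsm, hκs, smul_mul_assoc, ← hbw]
    rw [h3]
    exact Submodule.smul_mem _ _ (Submodule.subset_span ⟨_, rfl⟩)
  let b : Basis (RT Pr ι) (EU Pr') (EU Pr) := Basis.mk hli hsp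
  let e : (RT Pr ι → L) ≃ₗ[F] (EU Pr →ₗ[EU Pr'] L) := b.constr F
  refine ⟨EU Pr →ₗ[EU Pr'] L, inferInstance, inferInstance, Module.Finite.equiv e,
    coindR (Δ := EU Pr') (F := F) (L := L), ?_, ?_⟩
  · intro r a
    apply LinearMap.ext
    intro f
    apply LinearMap.ext
    intro s
    show f (s * (r • a)) = φ r • f (s * a)
    have h3 : s * (r • a) = (r • (1 : EU Pr')) • (s * a) := by
      rw [hsm, hκs, map_one, smul_mul_assoc, one_mul, mul_smul_comm]
    rw [h3, map_smul, hsmL, hτ, map_one]
    rfl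
  · have h3 : finrank F (EU Pr →ₗ[EU Pr'] L) = Fintype.card (RT Pr ι) * finrank F L := by
      rw [← e.finrank_eq, Module.finrank_pi_fintype]
      simp
    have h4 : Fintype.card (TI Pr) = ∏ x, Pr.n x := by
      rw [Fintype.card_pi]
      simp
    have h5 : Fintype.card (TI Pr') = ∏ x', Pr'.n x' := by
      rw [Fintype.card_pi]
      simp
    have h6 : Fintype.card (TI Pr) = Fintype.card (TI Pr') * Fintype.card (RT Pr ι) := by
      rw [Fintype.card_congr eqv, Fintype.card_prod]
    rw [h3, ← h4, ← h5, h6]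
    ring

end Pool.Agent.Helper81.SKF
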